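import Pool.Agent.Helper64.IG.Goals

/-!
# REP: nonzero tensors of points of branch-width at most `w`
-/

open scoped BigOperators
open Module

namespace Pool.Agent.Helper64.IG.PkREP

universe u

/-- `sel` commutes with `map`. -/
theorem sel_map {α β : Type*} (f : α → β) : ∀ (l : List α) (b : List Bool),
    sel (l.map f) b = (sel l b).map f
  | [], [] => by simp [sel]
  | [], _ :: _ => by simp [sel]
  | _ :: _, [] => by simp [sel]
  | a :: l, true :: b => by simp [sel, sel_map f l b]
  | a :: l, false :: b => by simp [sel, sel_map f l b]

/-- The tensor of a decomposable form along a list. -/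
theorem ft_eq {K : Type*} [Field K] {n p : ℕ} (ω : Form K n p) (c : K)
    (v : Ix n p → Fin p → K)
    (h : ∀ a, ω a = c * Matrix.det (fun i j => v (a j) i)) (M : List (Ix n p))
    (b : List Bool) : ft ω M b = c * plu (M.map v) b := by
  unfold ft plu dl
  by_cases h1 : b.length = M.length
  · rw [if_pos h1, if_pos (by simpa using h1)]
    by_cases h2 : (sel M b).length = p
    · rw [dif_pos h2]
      have h3 : (sel (M.map v) b).length = p := by
        rw [sel_map]; simpa using h2
      rw [dif_pos h3, h]
      congr 2
      funext i j
      have : (sel (M.map v) b).get (Fin.cast h3.symm j) = v ((sel M b).get (Fin.cast h2.symm j)) := by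
        simp only [List.get_eq_getElem, Fin.val_cast]
        simp only [sel_map, List.getElem_map]
      rw [this]
    · have h3 : ¬ (sel (M.map v) b).length = p := by
        rw [sel_map]; simpa using h2
      rw [dif_neg h2, dif_neg h3, mul_zero]
  · rw [if_neg h1, if_neg (by simpa using h1), mul_zero]

/-- Transport of trees along a bijection. -/
theorem dec_map {E E' : Type*} [DecidableEq E] [DecidableEq E'] (g : E ≃ E')
    {lam : Finset E → ℕ} {lam' : Finset E' → ℕ} {w : ℕ}
    (h : ∀ X, lam' (X.map g.toEmbedding) ≤ lam X) {X : Finset E} (hX : Dec lam w X) :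
    Dec lam' w (X.map g.toEmbedding) := by
  induction hX with
  | single e he =>
    rw [Finset.map_singleton]
    refine Dec.single _ ?_
    have := h {e}
    rw [Finset.map_singleton] at this
    exact this.trans he
  | join A B hAB _ _ hw ihA ihB =>
    have h1 := h (A ∪ B)
    rw [Finset.map_union] at h1 ⊢
    exact Dec.join _ _ ((Finset.disjoint_map _).mpr hAB) ihA ihB (h1.trans hw)

/-- If `lam ≤ w` everywhere, any tree will do. -/
theorem dec_all {E : Type*} [DecidableEq E] {lam : Finset E → ℕ} {w : ℕ}
    (h : ∀ X, lam X ≤ w) (X : Finset E) (hX : X.Nonempty) : Dec lam w X := by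
  induction X using Finset.induction_on with
  | empty => exact absurd hX (by simp)
  | insert a s ha ih =>
    rcases s.eq_empty_or_nonempty with rfl | hs
    · have : (insert a (∅ : Finset E)) = {a} := by simp
      rw [this]
      exact Dec.single a (h _)
    · have : insert a s = {a} ∪ s := by
        ext x; simp
      rw [this]
      exact Dec.join _ _ (by simpa using ha) (Dec.single a (h _)) (ih hs) (h _)

/-- A nonzero form has combinatorial rank `p`. -/
theorem rk_univ {K : Type*} [Field K] {n p : ℕ} (ω : Form K n p) (hω : ω ≠ 0) :
    rk ω Finset.univ = p := by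
  classical
  obtain ⟨a, ha⟩ : ∃ a, ω a ≠ 0 := by
    by_contra hcon
    push Not at hcon
    exact hω (funext hcon)
  unfold rk
  apply le_antisymm
  · refine Finset.sup_le fun b _ => ?_
    refine (Finset.card_le_univ _).trans ?_
    simp
  · have h1 : a ∈ (Finset.univ.filter fun a => ω a ≠ 0) := by simpa using ha
    have h2 := Finset.le_sup (f := fun a : Fin p → Ix n p =>
      (Finset.univ.filter fun j => a j ∈ (Finset.univ : Finset (Ix n p))).card) h1
    refine le_trans ?_ h2
    simp

theorem rep (rk1 : G_RK1.{u}) : G_REP.{u} := by
  intro K _ w C hC m z hm hz hz0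
  rcases hz with hz | ⟨x, hx, n, p, hnp, L, hL, hLm, rfl⟩
  · exact absurd hz hz0
  obtain ⟨c, φ, hω⟩ := x.dec n p
  set ω := x.x n p with hωdef
  set v : Ix n p → Fin p → K := fun e i => φ i e with hv
  have hω' : ∀ a, ω a = c * Matrix.det (fun i j => v (a j) i) := hω
  have hω0 : ω ≠ 0 := by
    intro h0
    apply hz0
    funext b
    unfold ft
    rw [h0]
    simp
  have hc : c ≠ 0 := by
    rintro rfl
    apply hω0
    funext a
    rw [hω']
    simp
  have hfull : ∀ e, e ∈ L := by
    intro e
    have h1 : L.toFinset = Finset.univ := by
      apply Finset.eq_univ_of_card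
      rw [List.toFinset_card_of_nodup hL, hLm, ← hnp]
      simp
    have : e ∈ L.toFinset := by rw [h1]; simp
    simpa using this
  have hlen : (L.map v).length = L.length := by simp
  -- the bijection
  set l : List (Fin p → K) := L.map v with hl
  let g0 : Fin l.length → Ix n p := fun i => L.get (Fin.cast hlen i)
  have hg0i : Function.Injective g0 := by
    intro i j hij
    have := (List.nodup_iff_injective_get.mp hL) hij
    exact Fin.cast_injective _ this
  have hg0s : Function.Surjective g0 := by
    intro e
    obtain ⟨i, hi⟩ := List.get_of_mem (hfull e)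
    exact ⟨Fin.cast hlen.symm i, by simpa [g0] using hi⟩
  let g : Fin l.length ≃ Ix n p := Equiv.ofBijective g0 ⟨hg0i, hg0s⟩
  have hget : ∀ i, l.get i = v (g i) := by
    intro i
    simp [hl, g, g0]
  have hrkS : ∀ X : Finset (Fin l.length), rkS l X = rk ω (X.map g.toEmbedding) := by
    intro X
    rw [rk1 K n p ω c v hω' hω0]
    unfold rkS
    have hs : l.get '' (X : Set (Fin l.length)) =
        v '' ((X.map g.toEmbedding : Finset (Ix n p)) : Set (Ix n p)) := by
      rw [Finset.coe_map, Set.image_image]
      apply Set.image_congr
      intro i _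
      exact hget i
    rw [hs]
  have hlam : ∀ X : Finset (Fin l.length), lamL l X = conn ω (X.map g.toEmbedding) := by
    intro X
    unfold lamL conn
    rw [hrkS, hrkS]
    congr 3
    ext y
    simp only [Finset.mem_map_equiv, Finset.mem_compl]
  refine ⟨p, c, l, hc, by rw [hlen, hLm], ?_, ?_, ?_, ?_⟩
  · -- rank
    have h1 := rk1 K n p ω c v hω' hω0 Finset.univ
    rw [rk_univ ω hω0] at h1
    unfold rkl
    have hs : {y | y ∈ l} = v '' ((Finset.univ : Finset (Ix n p)) : Set (Ix n p)) := by
      ext y
      simp only [hl, List.mem_map, Set.mem_ofPred_eq, Finset.coe_univ, Set.image_univ,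
        Set.mem_range]
      exact ⟨fun ⟨a, _, h⟩ => ⟨a, h⟩, fun ⟨a, h⟩ => ⟨a, hfull a, h⟩⟩
    rw [hs]
    exact h1.symm
  · -- branch decomposition
    have hpos : (Finset.univ : Finset (Fin l.length)).Nonempty := by
      refine ⟨⟨0, ?_⟩, by simp⟩
      rw [hlen, hLm]; omega
    rcases Nat.eq_zero_or_pos p with hp | hp
    · apply dec_all _ _ hpos
      intro X
      have h1 : ∀ Y : Finset (Fin l.length), rkS l Y = 0 := by
        intro Y
        unfold rkS
        have h2 : finrank K (Submodule.span K (l.get '' (Y : Set (Fin l.length)))) ≤
          finrank K (Fin p → K) := Submodule.finrank_le _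
        rw [Module.finrank_fin_fun] at h2
        omega
      unfold lamL
      rw [h1, h1]
      omega
    rcases Nat.eq_zero_or_pos n with hn | hn
    · apply dec_all _ _ hpos
      intro X
      have h1 : ∀ Y : Finset (Fin l.length), rkS l Y ≤ Y.card := by
        intro Y
        classical
        unfold rkS
        have h3 : (l.get '' (Y : Set (Fin l.length))) = ((Y.image l.get : Finset _) : Set _) := by
          simp
        rw [h3]
        exact (finrank_span_finset_le_card _).trans Finset.card_image_le
      unfold lamL
      have h2 := h1 X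
      have h3 := h1 Xᶜ
      have h4 := Finset.card_add_card_compl X
      rw [Fintype.card_fin] at h4
      have h5 : l.length = m := by rw [hlen, hLm]
      omega
    · have h1 : Dec (conn ω) w Finset.univ := hC hx n p hn hp
      have h2 := dec_map g.symm (lam := conn ω) (lam' := lamL l) (w := w) (fun X => by
        rw [hlam]
        apply le_of_eq
        congr 1
        ext y
        simp) h1
      have h3 : (Finset.univ : Finset (Ix n p)).map g.symm.toEmbedding = Finset.univ := by
        ext y; simp
      rw [h3] at h2
      exact h2
  · funext b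
    exact ft_eq ω c v hω' L b
  · intro ρ hρ hρl
    right
    refine ⟨x, hx, n, p, hnp, ρ.map g, ?_, ?_, ?_⟩
    · exact hρ.map g.injective
    · rw [List.length_map, hρl, hlen, hLm]
    · funext b
      rw [← hωdef, ft_eq ω c v hω']
      congr 2
      rw [List.map_map]
      apply List.map_congr_left
      intro i _
      exact hget i

end Pool.Agent.Helper64.IG.PkREP
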